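import Pool.Agent.V1129.Irr3

set_option autoImplicit false

/-!
MP_f36f0e_al, Q1: there is a faithful irreducible coset space `G/H` and an abelian minimal closed
normal subgroup `M` of `G` which is properly contained in its centraliser.
-/

namespace Pool.Agent.Results.MP_f36f0e_al.BigCentraliser

open Pool.Agent.V1129.Irr

theorem result : ∃ (G : Type) (_ : Group G) (_ : TopologicalSpace G) (_ : IsTopologicalGroup G)
    (H M : Subgroup G), Countable G ∧ TopologicalSpace.MetrizableSpace G ∧
      FaithfulIrreducible G H ∧ MinimalClosedNormal G M ∧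
      M < Subgroup.centralizer (M : Set G) := by
  refine ⟨GG, inferInstance, inferInstance, inferInstance, HH, MM 0, inferInstance, inferInstance,
    GG_faithful, MM_minimal 0, ?_⟩
  have hd := MM_disjoint (i := 0) (j := 1) zero_ne_one
  have hle1 : MM 1 ≤ Subgroup.centralizer (MM 0 : Set GG) := by
    intro n hn
    rw [Subgroup.mem_centralizer_iff]
    intro m hm
    have h3 : m * n * m⁻¹ * n⁻¹ ∈ MM 0 ⊓ MM 1 := by
      constructor
      · have h4 : m * n * m⁻¹ * n⁻¹ = m * (n * m⁻¹ * n⁻¹) := by group
        rw [h4]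
        exact (MM 0).mul_mem hm ((MM_normal 0).conj_mem _ ((MM 0).inv_mem hm) n)
      · exact (MM 1).mul_mem ((MM_normal 1).conj_mem _ hn m) ((MM 1).inv_mem hn)
    rw [hd, Subgroup.mem_bot] at h3
    have h5 : m * n * m⁻¹ = n := mul_inv_eq_one.1 h3
    exact mul_inv_eq_iff_eq_mul.1 h5
  refine lt_of_le_of_ne ?_ ?_
  · intro a ha
    rw [Subgroup.mem_centralizer_iff]
    exact fun b hb => MM_comm 0 b a hb ha
  · intro h
    rw [← h] at hle1
    have h6 : MM 1 = ⊥ := by
      rw [← hd]
      exact (inf_eq_right.2 hle1).symm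
    exact MM_ne_bot 1 h6

end Pool.Agent.Results.MP_f36f0e_al.BigCentraliser
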